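import Mathlib

set_option autoImplicit false

/-!
# Sets with fewer than `3/2` as many quotients are large in a coset of a subgroup
-/

namespace Pool.Agent.N345.Dih

open Finset

section ThreeHalves

variable {G : Type} [Group G] [DecidableEq G] (S : Finset G)

/-- the quotients `a⁻¹ b` -/
def quot : Finset G := (S ×ˢ S).image fun z => z.1⁻¹ * z.2

/-- the quotients `b a⁻¹` -/
def quot' : Finset G := (S ×ˢ S).image fun z => z.1 * z.2⁻¹

variable {S}

theorem mem_quot {x : G} : x ∈ quot S ↔ ∃ a ∈ S, ∃ b ∈ S, a⁻¹ * b = x := by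
  unfold quot
  rw [Finset.mem_image]
  constructor
  · rintro ⟨z, hz, rfl⟩
    exact ⟨z.1, (Finset.mem_product.1 hz).1, z.2, (Finset.mem_product.1 hz).2, rfl⟩
  · rintro ⟨a, ha, b, hb, rfl⟩
    exact ⟨(a, b), Finset.mem_product.2 ⟨ha, hb⟩, rfl⟩

theorem mem_quot' {x : G} : x ∈ quot' S ↔ ∃ a ∈ S, ∃ b ∈ S, a * b⁻¹ = x := by
  unfold quot'
  rw [Finset.mem_image]
  constructor
  · rintro ⟨z, hz, rfl⟩
    exact ⟨z.1, (Finset.mem_product.1 hz).1, z.2, (Finset.mem_product.1 hz).2, rfl⟩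
  · rintro ⟨a, ha, b, hb, rfl⟩
    exact ⟨(a, b), Finset.mem_product.2 ⟨ha, hb⟩, rfl⟩

variable (h : 2 * (quot S).card < 3 * S.card)

include h

theorem popular {z : G} (hz : z ∈ quot' S) : S.card < 2 * (S.filter fun s => z * s ∈ S).card := by
  obtain ⟨b, hb, a, ha, rfl⟩ := mem_quot'.1 hz
  set X := S.image fun s => a⁻¹ * s with hX
  set Y := S.image fun s => b⁻¹ * s with hY
  have hXc : X.card = S.card := Finset.card_image_of_injective _ (mul_right_injective _)
  have hYc : Y.card = S.card := Finset.card_image_of_injective _ (mul_right_injective _)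
  have hU : (X ∪ Y).card ≤ (quot S).card := by
    refine Finset.card_le_card ?_
    intro x hx
    rcases Finset.mem_union.1 hx with hx | hx
    · obtain ⟨s, hs, rfl⟩ := Finset.mem_image.1 hx
      exact mem_quot.2 ⟨a, ha, s, hs, rfl⟩
    · obtain ⟨s, hs, rfl⟩ := Finset.mem_image.1 hx
      exact mem_quot.2 ⟨b, hb, s, hs, rfl⟩
  have hI : (X ∩ Y).card ≤ (S.filter fun s => b * a⁻¹ * s ∈ S).card := by
    refine Finset.card_le_card_of_injOn (fun x => a * x) ?_ ?_
    · intro x hx
      have hx' := Finset.mem_inter.1 (Finset.mem_coe.1 hx)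
      obtain ⟨s, hs, hsx⟩ := Finset.mem_image.1 hx'.1
      obtain ⟨t, ht, htx⟩ := Finset.mem_image.1 hx'.2
      refine Finset.mem_coe.2 (Finset.mem_filter.2 ⟨?_, ?_⟩)
      · show a * x ∈ S
        rw [← hsx, mul_inv_cancel_left]; exact hs
      · show b * a⁻¹ * (a * x) ∈ S
        rw [mul_assoc, inv_mul_cancel_left, ← htx, mul_inv_cancel_left]
        exact ht
    · intro x _ y _ hxy
      exact mul_left_cancel hxy
  have := Finset.card_union_add_card_inter X Y
  omega

theorem quot'_div {z w : G} (hz : z ∈ quot' S) (hw : w ∈ quot' S) : z * w⁻¹ ∈ quot' S := by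
  have h1 := popular h hz
  have h2 := popular h hw
  obtain ⟨s, hs⟩ : ((S.filter fun s => z * s ∈ S) ∩ (S.filter fun s => w * s ∈ S)).Nonempty := by
    rw [← Finset.card_pos]
    have h3 := Finset.card_union_add_card_inter (S.filter fun s => z * s ∈ S)
      (S.filter fun s => w * s ∈ S)
    have h4 : ((S.filter fun s => z * s ∈ S) ∪ (S.filter fun s => w * s ∈ S)).card ≤ S.card :=
      Finset.card_le_card (Finset.union_subset (Finset.filter_subset _ _)
        (Finset.filter_subset _ _))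
    omega
  rw [Finset.mem_inter, Finset.mem_filter, Finset.mem_filter] at hs
  refine mem_quot'.2 ⟨z * s, hs.1.2, w * s, hs.2.2, ?_⟩
  group

/-- the subgroup `S S⁻¹` -/
def leftGroup (hS : S.Nonempty) : Subgroup G where
  carrier := {x | x ∈ quot' S}
  one_mem' := by
    obtain ⟨s, hs⟩ := hS
    exact mem_quot'.2 ⟨s, hs, s, hs, mul_inv_cancel s⟩
  mul_mem' := by
    intro a b ha hb
    obtain ⟨s, hs⟩ := hS
    have h1 : (1 : G) ∈ quot' S := mem_quot'.2 ⟨s, hs, s, hs, mul_inv_cancel s⟩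
    have h2 : b⁻¹ ∈ quot' S := by
      have := quot'_div h h1 hb
      rwa [one_mul] at this
    have := quot'_div h ha h2
    rwa [inv_inv] at this
  inv_mem' := by
    intro b hb
    obtain ⟨s, hs⟩ := hS
    have h1 : (1 : G) ∈ quot' S := mem_quot'.2 ⟨s, hs, s, hs, mul_inv_cancel s⟩
    have := quot'_div h h1 hb
    rwa [one_mul] at this

theorem quot'_card (hS : S.Nonempty) : (quot' S).card < 2 * S.card := by
  have h1 : ∑ z ∈ quot' S, (S.filter fun s => z * s ∈ S).card ≤ S.card * S.card := by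
    simp only [Finset.card_filter]
    rw [Finset.sum_comm]
    rw [← smul_eq_mul, ← Finset.sum_const]
    refine Finset.sum_le_sum fun s _ => ?_
    rw [← Finset.card_filter]
    refine Finset.card_le_card_of_injOn (fun z => z * s) ?_ ?_
    · intro z hz
      exact (Finset.mem_filter.1 (Finset.mem_coe.1 hz)).2
    · intro x _ y _ hxy
      exact mul_right_cancel hxy
  have h2 : (quot' S).card * (S.card + 1) ≤ ∑ z ∈ quot' S, 2 * (S.filter fun s => z * s ∈ S).card := by
    rw [← smul_eq_mul, ← Finset.sum_const]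
    exact Finset.sum_le_sum fun z hz => popular h hz
  rw [← Finset.mul_sum] at h2
  have h3 : 0 < S.card := hS.card_pos
  by_contra hcon
  push Not at hcon
  have h4 : 2 * S.card * (S.card + 1) ≤ (quot' S).card * (S.card + 1) :=
    Nat.mul_le_mul_right _ hcon
  nlinarith

/-- **The `3/2` theorem.** -/
theorem exists_subgroup (hS : S.Nonempty) : ∃ H : Subgroup G, ∀ x, x ∈ H ↔ x ∈ quot S := by
  obtain ⟨s₀, hs₀⟩ := hS
  have hS : S.Nonempty := ⟨s₀, hs₀⟩
  let H₁ := leftGroup h hS
  have hH₁ : ∀ x, x ∈ H₁ ↔ x ∈ quot' S := fun x => Iff.rfl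
  refine ⟨H₁.comap (MulAut.conj s₀).toMonoidHom, fun x => ?_⟩
  rw [Subgroup.mem_comap]
  show s₀ * x * s₀⁻¹ ∈ H₁ ↔ _
  constructor
  · intro hx
    -- `S s₀⁻¹` is more than half of `H₁`
    have hc := quot'_card h hS
    set T := S.image fun s => s * s₀⁻¹ with hT
    set T' := S.image fun s => s * s₀⁻¹ * (s₀ * x * s₀⁻¹) with hT'
    have hTc : T.card = S.card := Finset.card_image_of_injective _ (mul_left_injective _)
    have hTc' : T'.card = S.card := by
      refine Finset.card_image_of_injective _ fun a b hab => ?_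
      exact mul_right_cancel (mul_right_cancel hab)
    have hTs : T ∪ T' ⊆ quot' S := by
      intro y hy
      rcases Finset.mem_union.1 hy with hy | hy
      · obtain ⟨s, hs, rfl⟩ := Finset.mem_image.1 hy
        exact mem_quot'.2 ⟨s, hs, s₀, hs₀, rfl⟩
      · obtain ⟨s, hs, rfl⟩ := Finset.mem_image.1 hy
        exact (hH₁ _).1 (H₁.mul_mem ((hH₁ _).2 (mem_quot'.2 ⟨s, hs, s₀, hs₀, rfl⟩)) hx)
    obtain ⟨y, hy⟩ : (T ∩ T').Nonempty := by
      rw [← Finset.card_pos]
      have h3 := Finset.card_union_add_card_inter T T'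
      have h4 := Finset.card_le_card hTs
      omega
    rw [Finset.mem_inter] at hy
    obtain ⟨b, hb, hby⟩ := Finset.mem_image.1 hy.1
    obtain ⟨a, ha, hay⟩ := Finset.mem_image.1 hy.2
    refine mem_quot.2 ⟨a, ha, b, hb, ?_⟩
    have e : b * s₀⁻¹ = a * s₀⁻¹ * (s₀ * x * s₀⁻¹) := hby.trans hay.symm
    have e2 : b = a * x := by
      have e3 : a * s₀⁻¹ * (s₀ * x * s₀⁻¹) = a * x * s₀⁻¹ := by group
      rw [e3] at e
      exact mul_right_cancel e
    rw [e2]; group
  · intro hx
    obtain ⟨a, ha, b, hb, rfl⟩ := mem_quot.1 hx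
    have e : s₀ * (a⁻¹ * b) * s₀⁻¹ = (s₀ * a⁻¹) * (b * s₀⁻¹) := by group
    rw [e]
    exact H₁.mul_mem ((hH₁ _).2 (mem_quot'.2 ⟨s₀, hs₀, a, ha, rfl⟩))
      ((hH₁ _).2 (mem_quot'.2 ⟨b, hb, s₀, hs₀, rfl⟩))

end ThreeHalves

/-- the group of the maps `x ↦ v + e x`, `e = 1` or `-1`, of an abelian group -/
@[ext] structure Mot (A : Type) where
  /-- the sign -/
  e : ℤˣ
  /-- the translation -/
  v : A

namespace Mot

variable {A : Type} [AddCommGroup A]

instance : Mul (Mot A) := ⟨fun g h => ⟨g.e * h.e, g.v + (g.e : ℤ) • h.v⟩⟩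

instance : One (Mot A) := ⟨⟨1, 0⟩⟩

instance : Inv (Mot A) := ⟨fun g => ⟨g.e, -((g.e : ℤ) • g.v)⟩⟩

@[simp] theorem mul_e (g h : Mot A) : (g * h).e = g.e * h.e := rfl

@[simp] theorem mul_v (g h : Mot A) : (g * h).v = g.v + (g.e : ℤ) • h.v := rfl

@[simp] theorem one_e : (1 : Mot A).e = 1 := rfl

@[simp] theorem one_v : (1 : Mot A).v = 0 := rfl

@[simp] theorem inv_e (g : Mot A) : (g⁻¹).e = g.e := rfl

@[simp] theorem inv_v (g : Mot A) : (g⁻¹).v = -((g.e : ℤ) • g.v) := rfl

instance : Group (Mot A) := Group.ofLeftAxioms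
  (by
    intro a b c
    ext
    · simp [mul_assoc]
    · simp [mul_smul, add_assoc])
  (by
    intro a
    ext <;> simp)
  (by
    intro a
    ext
    · simp
    · simp)

end Mot

end Pool.Agent.N345.Dih
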